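import Pool.Agent.R98.LocSpeed

/-! MP_3772ec_co: a hereditary graph property within the speed limit `n ^ (k n)` that has no local
representation with `O(√n)`-bit labels; in fact labels with more than `√n log₂ n / 128` bits are
needed for infinitely many `n`.

`P n` is the set of graphs with vertex set `Fin n` that have the property; `Hereditary P` says that
it is closed under isomorphism and induced subgraphs; `SpeedLimit P` says that `P n` has at most
`n ^ (k n)` elements for some `k` and all large `n`; `Decodes A G ℓ` says that the decoder `A`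
computes the adjacency of any two distinct vertices `v`, `w` of `G` from their labels. -/

namespace Pool.Agent.Results.MP_3772ec_co.NoSquareRootLabels

open Pool.Agent.R98.Loc

/-- There is a hereditary property `P` satisfying the speed limit such that, for infinitely many `n`
(and with `n` not depending on the decoder), every decoder `A` fails on some graph of `P` with `n`
vertices if labels of at most `√n log₂ n / 128` bits are used. In particular, for every constant `c`
and every decoder `A` some graph in `P` on `n ≥ 2` vertices has no labelling by at most `c √n` bits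
that is decoded correctly by `A`. -/
theorem result : ∃ P : (n : ℕ) → Set (SimpleGraph (Fin n)), Hereditary P ∧ SpeedLimit P ∧
    (∀ N : ℕ, ∃ n ≥ N, ∀ A : List Bool → List Bool → Bool, ∃ G ∈ P n,
      ∀ ℓ : Fin n → List Bool,
        (∀ v, ((ℓ v).length : ℝ) ≤ 1 / 128 * (Real.sqrt n * Real.logb 2 n)) →
        ¬ Decodes A G ℓ) ∧
    (∀ (c : ℝ) (A : List Bool → List Bool → Bool), ∃ n ≥ 2, ∃ G ∈ P n,
      ∀ ℓ : Fin n → List Bool, (∀ v, ((ℓ v).length : ℝ) ≤ c * Real.sqrt n) →
        ¬ Decodes A G ℓ) := by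
  obtain ⟨P, h1, h2, h3⟩ := main
  have hsqrt : ∀ j : ℕ, Real.sqrt ((2 ^ (8 * j) : ℕ) : ℝ) = 2 ^ (4 * j) := by
    intro j
    have : ((2 ^ (8 * j) : ℕ) : ℝ) = ((2 : ℝ) ^ (4 * j)) ^ 2 := by
      push_cast
      rw [← pow_mul]
      congr 1
      ring
    rw [this, Real.sqrt_sq (by positivity)]
  have hlog : ∀ j : ℕ, Real.logb 2 ((2 ^ (8 * j) : ℕ) : ℝ) = 8 * j := by
    intro j
    push_cast
    rw [Real.logb_pow, Real.logb_self_eq_one (by norm_num)]
    push_cast
    ring
  have hbb : ∀ j : ℕ, 1 ≤ j → (bb j : ℝ) = 1 / 128 * (2 ^ (4 * j) * (8 * j)) := by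
    intro j hj
    have := bb_eq hj
    have h4 : (16 : ℝ) * bb j = j * 2 ^ (4 * j) := by exact_mod_cast this
    linarith
  have hbig : ∀ j : ℕ, j < 2 ^ (8 * j) := fun j =>
    lt_of_lt_of_le Nat.lt_two_pow_self (Nat.pow_le_pow_right (by norm_num) (by omega))
  refine ⟨P, h1, ⟨49, 2, fun n hn => h2 n hn⟩, ?_, ?_⟩
  · intro N
    refine ⟨2 ^ (8 * (N + 1)), ?_, ?_⟩
    · have := hbig (N + 1)
      omega
    · intro A
      obtain ⟨G, hG, hG2⟩ := h3 (N + 1) (by omega) A
      refine ⟨G, hG, ?_⟩
      intro ℓ hℓ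
      apply hG2
      intro v
      have h4 := hℓ v
      rw [hsqrt, hlog, ← hbb (N + 1) (by omega)] at h4
      exact_mod_cast h4
  · intro c A
    obtain ⟨j, hj⟩ := exists_nat_gt (16 * c)
    refine ⟨2 ^ (8 * (j + 1)), ?_, ?_⟩
    · calc 2 = 2 ^ 1 := by norm_num
        _ ≤ 2 ^ (8 * (j + 1)) := Nat.pow_le_pow_right (by norm_num) (by omega)
    · obtain ⟨G, hG, hG2⟩ := h3 (j + 1) (by omega) A
      refine ⟨G, hG, ?_⟩
      intro ℓ hℓ
      apply hG2
      intro v
      have h4 := hℓ v
      rw [hsqrt] at h4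
      have h5 : c * (2 : ℝ) ^ (4 * (j + 1)) ≤ bb (j + 1) := by
        rw [hbb (j + 1) (by omega)]
        have h6 : (0 : ℝ) < 2 ^ (4 * (j + 1)) := by positivity
        have h7 : c ≤ 1 / 16 * ((j + 1 : ℕ) : ℝ) := by
          push_cast
          linarith
        calc c * (2 : ℝ) ^ (4 * (j + 1)) ≤ (1 / 16 * ((j + 1 : ℕ) : ℝ)) * 2 ^ (4 * (j + 1)) :=
              mul_le_mul_of_nonneg_right h7 h6.le
          _ = 1 / 128 * (2 ^ (4 * (j + 1)) * (8 * ((j + 1 : ℕ) : ℝ))) := by ring
      exact_mod_cast h4.trans h5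

end Pool.Agent.Results.MP_3772ec_co.NoSquareRootLabels
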