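import Mathlib

set_option autoImplicit false

open SimpleGraph

namespace Pool.Agent.Results.MP_3772ec_co.SqrtLogLabels

/-! ### Codes of labels -/

/-- The binary number of a label, with a leading one. -/
def enc : List Bool → ℕ
  | [] => 1
  | b :: l => 2 * enc l + b.toNat

lemma enc_pos (l : List Bool) : 1 ≤ enc l := by
  induction l with
  | nil => simp [enc]
  | cons b l ih => simp only [enc]; omega

lemma enc_lt (l : List Bool) : enc l < 2 ^ (l.length + 1) := by
  induction l with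
  | nil => simp [enc]
  | cons b l ih =>
    simp only [enc, List.length_cons]
    have := Bool.toNat_le b
    rw [pow_succ]
    omega

lemma enc_inj : Function.Injective enc := by
  intro l
  induction l with
  | nil =>
    intro l' h
    cases l' with
    | nil => rfl
    | cons b l' =>
      have := enc_pos l'
      simp only [enc] at h
      omega
  | cons b l ih =>
    intro l' h
    cases l' with
    | nil =>
      have := enc_pos l
      simp only [enc] at h
      omega
    | cons b' l' =>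
      simp only [enc] at h
      have h1 := Bool.toNat_le b
      have h2 := Bool.toNat_le b'
      have h3 : b.toNat = b'.toNat := by omega
      have h4 : enc l = enc l' := by omega
      rw [ih h4]
      congr 1
      revert h3
      cases b <;> cases b' <;> simp

/-! ### A counting lemma: a family which no decoder handles -/

lemma exists_tuple {X D : Type} [Fintype X] [Fintype D] (C : D → Set X) (B K : ℕ)
    (hB : ∀ d, (C d).ncard ≤ B) (h : Fintype.card D * B ^ K < Fintype.card X ^ K) :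
    ∃ f : Fin K → X, ∀ d, ∃ r, f r ∉ C d := by
  classical
  by_contra hcon
  push Not at hcon
  have h1 : (Finset.univ : Finset (Fin K → X)) ⊆
      Finset.univ.biUnion (fun d : D => Fintype.piFinset (fun _ : Fin K => (C d).toFinset)) := by
    intro f _
    obtain ⟨d, hd⟩ := hcon f
    refine Finset.mem_biUnion.2 ⟨d, Finset.mem_univ _, ?_⟩
    rw [Fintype.mem_piFinset]
    intro r
    rw [Set.mem_toFinset]
    exact hd r
  have h2 := Finset.card_le_card h1
  rw [Finset.card_univ, Fintype.card_fun, Fintype.card_fin] at h2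
  have h3 : (Finset.univ.biUnion (fun d : D =>
      Fintype.piFinset (fun _ : Fin K => (C d).toFinset))).card ≤ Fintype.card D * B ^ K := by
    refine (Finset.card_biUnion_le).trans ?_
    refine (Finset.sum_le_card_nsmul _ _ (B ^ K) ?_).trans (by simp)
    intro d _
    rw [Fintype.card_piFinset]
    simp only [Finset.prod_const, Finset.card_univ, Fintype.card_fin]
    refine Nat.pow_le_pow_left ?_ K
    have := hB d
    rwa [Set.ncard_eq_toFinset_card'] at this
  omega

/-- The graph `G` is decoded from the labelling `ℓ` by `A`. -/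
def Dec {n : ℕ} {Λ : Type} (A : Λ → Λ → Prop) (ℓ : Fin n → Λ) (G : SimpleGraph (Fin n)) : Prop :=
  ∀ v w, v ≠ w → (G.Adj v w ↔ A (ℓ v) (ℓ w))

lemma dec_unique {n : ℕ} {Λ : Type} {A : Λ → Λ → Prop} {ℓ : Fin n → Λ}
    {G G' : SimpleGraph (Fin n)} (h : Dec A ℓ G) (h' : Dec A ℓ G') : G = G' := by
  ext v w
  by_cases hvw : v = w
  · subst hvw; simp
  · rw [h v w hvw, h' v w hvw]

open Classical in
/-- Subgraphs of a host with many edges: some family of `4^(L+1)` of them is handled by no decoder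
with labels of length at most `L`. -/
lemma family {n : ℕ} (H : SimpleGraph (Fin n)) (L : ℕ)
    (hE : 1 + (L + 1) * n < H.edgeFinset.card) :
    ∃ F : Fin (4 ^ (L + 1)) → SimpleGraph (Fin n), (∀ r, F r ≤ H) ∧
      ∀ A : List Bool → List Bool → Prop, ∃ r, ¬ ∃ ℓ : Fin n → List Bool,
        (∀ v, (ℓ v).length ≤ L) ∧ Dec A ℓ (F r) := by
  set M : ℕ := 2 ^ (L + 1) with hM
  let X := {G : SimpleGraph (Fin n) // G ≤ H}
  let D := Fin M → Fin M → Bool
  let C : D → Set X := fun d => {G | ∃ ℓ : Fin n → Fin M, Dec (fun x y => d x y = true) ℓ G.1}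
  have hX : 2 ^ H.edgeFinset.card ≤ Fintype.card X := by
    rw [← Finset.card_powerset, ← Fintype.card_coe]
    refine Fintype.card_le_of_injective (fun T : H.edgeFinset.powerset =>
      (⟨SimpleGraph.fromEdgeSet (T.1 : Set (Sym2 (Fin n))), ?_⟩ : X)) ?_
    · intro v w hvw
      rw [SimpleGraph.fromEdgeSet_adj] at hvw
      have h1 := Finset.mem_powerset.1 T.2 (Finset.mem_coe.1 hvw.1)
      simpa using h1
    · intro T T' hTT
      have h1 : SimpleGraph.fromEdgeSet (T.1 : Set (Sym2 (Fin n))) =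
          SimpleGraph.fromEdgeSet (T'.1 : Set (Sym2 (Fin n))) := congrArg Subtype.val hTT
      have h2 : ∀ T : H.edgeFinset.powerset,
          (SimpleGraph.fromEdgeSet (T.1 : Set (Sym2 (Fin n)))).edgeSet = (T.1 : Set _) := by
        intro T
        rw [SimpleGraph.edgeSet_fromEdgeSet]
        ext e
        simp only [Set.mem_sdiff, Finset.mem_coe]
        constructor
        · exact fun h => h.1
        · intro h
          refine ⟨h, ?_⟩
          have h3 := Finset.mem_powerset.1 T.2 h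
          exact SimpleGraph.not_isDiag_of_mem_edgeFinset h3
      apply Subtype.ext
      apply Finset.coe_injective
      rw [← h2 T, ← h2 T', h1]
  have hC : ∀ d, (C d).ncard ≤ M ^ n := by
    intro d
    have h1 : ∀ G : C d, ∃ ℓ : Fin n → Fin M, Dec (fun x y => d x y = true) ℓ G.1.1 :=
      fun G => G.2
    choose ℓ hℓ using h1
    have h2 : Function.Injective ℓ := by
      intro G G' hGG
      have h3 := hℓ G
      rw [hGG] at h3
      exact Subtype.ext (Subtype.ext (dec_unique h3 (hℓ G')))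
    have h3 := Fintype.card_le_of_injective ℓ h2
    rw [Fintype.card_fun, Fintype.card_fin, Fintype.card_fin] at h3
    rw [← Nat.card_coe_set_eq, Nat.card_eq_fintype_card]
    exact h3
  have hK : Fintype.card D * (M ^ n) ^ (4 ^ (L + 1)) < Fintype.card X ^ (4 ^ (L + 1)) := by
    have hD : Fintype.card D = 2 ^ (4 ^ (L + 1)) := by
      simp only [D, Fintype.card_fun, Fintype.card_fin, Fintype.card_bool]
      rw [← pow_mul, hM, ← pow_add, ← two_mul, pow_mul]
      norm_num
    rw [hD, hM, ← pow_mul, ← pow_mul, ← pow_add]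
    refine lt_of_lt_of_le ?_ (Nat.pow_le_pow_left hX _)
    rw [← pow_mul]
    apply Nat.pow_lt_pow_right (by norm_num)
    have h4 : 0 < 4 ^ (L + 1) := by positivity
    have h5 : 4 ^ (L + 1) + (L + 1) * (n * 4 ^ (L + 1)) = (1 + (L + 1) * n) * 4 ^ (L + 1) := by
      ring
    rw [h5]
    exact Nat.mul_lt_mul_of_pos_right hE h4
  obtain ⟨f, hf⟩ := exists_tuple C (M ^ n) (4 ^ (L + 1)) hC hK
  refine ⟨fun r => (f r).1, fun r => (f r).2, fun A => ?_⟩
  -- the finite decoder of `A`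
  let d : D := fun x y => decide (A (Function.invFun enc x) (Function.invFun enc y))
  obtain ⟨r, hr⟩ := hf d
  refine ⟨r, ?_⟩
  rintro ⟨ℓ, hℓ, hdec⟩
  apply hr
  have hlt : ∀ v, enc (ℓ v) < M := fun v =>
    (enc_lt (ℓ v)).trans_le (Nat.pow_le_pow_right (by norm_num) (by have := hℓ v; omega))
  refine ⟨fun v => ⟨enc (ℓ v), hlt v⟩, fun v w hvw => ?_⟩
  rw [hdec v w hvw]
  simp only [d, decide_eq_true_eq]
  rw [Function.leftInverse_invFun enc_inj, Function.leftInverse_invFun enc_inj]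

/-! ### A dense host graph which is locally sparse -/

open Classical in
lemma good_colouring {n q : ℕ} (hn : 0 < n) (hq : 0 < q) (Q : ℕ) (t : ℕ → ℕ)
    (ht : ∀ m, 1 ≤ m → m ≤ Q → (2 * n) ^ m * (q * ((m + 1).choose 2).choose (t m)) ≤ q ^ t m) :
    ∃ f : Sym2 (Fin n) → Fin q, ∀ a, ∀ S : Finset (Fin n), 1 ≤ S.card → S.card ≤ Q →
      (S.sym2.filter (fun e => f e = a)).card < t S.card := by
  by_contra hcon
  push Not at hcon
  set P : ℕ := Fintype.card (Sym2 (Fin n)) with hP
  let box : Fin q → Finset (Sym2 (Fin n)) → Finset (Sym2 (Fin n) → Fin q) := fun a T =>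
    Fintype.piFinset (fun e => if e ∈ T then {a} else Finset.univ)
  have hbox : ∀ a T, (box a T).card = q ^ (P - T.card) := by
    intro a T
    simp only [box]
    rw [Fintype.card_piFinset]
    have h1 : ∀ e : Sym2 (Fin n), (if e ∈ T then ({a} : Finset (Fin q)) else Finset.univ).card =
        if e ∈ T then 1 else q := by
      intro e
      split_ifs <;> simp
    rw [Finset.prod_congr rfl (fun e _ => h1 e), Finset.prod_ite]
    simp only [Finset.prod_const_one, one_mul, Finset.prod_const]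
    congr 1
    have h2 : (Finset.univ.filter (fun e => e ∉ T)) = Tᶜ := by ext; simp
    rw [h2, Finset.card_compl]
  let Ss : Finset (Finset (Fin n)) := Finset.univ.filter (fun S => 1 ≤ S.card ∧ S.card ≤ Q)
  have h1 : (Finset.univ : Finset (Sym2 (Fin n) → Fin q)) ⊆
      Finset.univ.biUnion (fun a : Fin q => Ss.biUnion (fun S =>
        (Finset.powersetCard (t S.card) S.sym2).biUnion (fun T => box a T))) := by
    intro f _
    obtain ⟨a, S, hS1, hS2, hle⟩ := hcon f
    obtain ⟨T, hT, hTc⟩ := Finset.exists_subset_card_eq hle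
    refine Finset.mem_biUnion.2 ⟨a, Finset.mem_univ _, Finset.mem_biUnion.2
      ⟨S, Finset.mem_filter.2 ⟨Finset.mem_univ _, hS1, hS2⟩, Finset.mem_biUnion.2 ⟨T, ?_, ?_⟩⟩⟩
    · rw [Finset.mem_powersetCard]
      exact ⟨hT.trans (Finset.filter_subset _ _), hTc⟩
    · simp only [box]
      rw [Fintype.mem_piFinset]
      intro e
      split_ifs with he
      · rw [Finset.mem_singleton]
        exact (Finset.mem_filter.1 (hT he)).2
      · exact Finset.mem_univ _
  have h2 := Finset.card_le_card h1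
  rw [Finset.card_univ, Fintype.card_fun, Fintype.card_fin] at h2
  have h3 : ((Finset.univ.biUnion (fun a : Fin q => Ss.biUnion (fun S =>
        (Finset.powersetCard (t S.card) S.sym2).biUnion (fun T => box a T)))).card : ℝ) ≤
      ∑ S ∈ Ss, (q : ℝ) ^ P * (1 / (2 * (n : ℝ))) ^ S.card := by
    have hq' : (0 : ℝ) < q := by exact_mod_cast hq
    have hn' : (0 : ℝ) < n := by exact_mod_cast hn
    have h4 : (Finset.univ.biUnion (fun a : Fin q => Ss.biUnion (fun S =>
        (Finset.powersetCard (t S.card) S.sym2).biUnion (fun T => box a T)))).card ≤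
        ∑ a : Fin q, ∑ S ∈ Ss, ∑ T ∈ Finset.powersetCard (t S.card) S.sym2, (box a T).card := by
      refine Finset.card_biUnion_le.trans (Finset.sum_le_sum fun a _ => ?_)
      refine Finset.card_biUnion_le.trans (Finset.sum_le_sum fun S _ => ?_)
      exact Finset.card_biUnion_le
    have h5 : ((∑ a : Fin q, ∑ S ∈ Ss, ∑ T ∈ Finset.powersetCard (t S.card) S.sym2,
        (box a T).card : ℕ) : ℝ) ≤ ∑ a : Fin q, ∑ S ∈ Ss,
          (((S.card + 1).choose 2).choose (t S.card) : ℝ) * ((q : ℝ) ^ P / (q : ℝ) ^ t S.card) := by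
      push_cast
      refine Finset.sum_le_sum fun a _ => Finset.sum_le_sum fun S _ => ?_
      have h6 : ∀ T ∈ Finset.powersetCard (t S.card) S.sym2, ((box a T).card : ℝ) ≤
          (q : ℝ) ^ P / (q : ℝ) ^ t S.card := by
        intro T hT
        rw [Finset.mem_powersetCard] at hT
        rw [hbox, hT.2, le_div_iff₀ (by positivity)]
        have h7 : t S.card ≤ P := by
          rw [← hT.2, hP, ← Finset.card_univ]
          exact Finset.card_le_card (Finset.subset_univ _)
        push_cast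
        rw [← pow_add, Nat.sub_add_cancel h7]
      refine (Finset.sum_le_card_nsmul _ _ _ h6).trans ?_
      rw [Finset.card_powersetCard, Finset.card_sym2, nsmul_eq_mul]
    refine (Nat.cast_le.2 h4).trans (h5.trans ?_)
    rw [Finset.sum_const, Finset.card_univ, Fintype.card_fin, nsmul_eq_mul, Finset.mul_sum]
    refine Finset.sum_le_sum fun S hS => ?_
    obtain ⟨hS1, hS2⟩ := (Finset.mem_filter.1 hS).2
    have h8 := ht S.card hS1 hS2
    have h9 : ((2 * (n : ℝ)) ^ S.card) * ((q : ℝ) *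
        (((S.card + 1).choose 2).choose (t S.card) : ℝ)) ≤ (q : ℝ) ^ t S.card := by
      exact_mod_cast h8
    have h10 : (q : ℝ) * (((S.card + 1).choose 2).choose (t S.card) : ℝ) / (q : ℝ) ^ t S.card ≤
        (1 / (2 * (n : ℝ))) ^ S.card := by
      rw [one_div, inv_pow, div_le_iff₀ (by positivity), inv_mul_eq_div, le_div_iff₀ (by positivity)]
      linarith
    calc (q : ℝ) * ((((S.card + 1).choose 2).choose (t S.card) : ℝ) *
          ((q : ℝ) ^ P / (q : ℝ) ^ t S.card)) =
        (q : ℝ) ^ P * ((q : ℝ) * (((S.card + 1).choose 2).choose (t S.card) : ℝ) /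
          (q : ℝ) ^ t S.card) := by ring
      _ ≤ (q : ℝ) ^ P * (1 / (2 * (n : ℝ))) ^ S.card := by
          exact mul_le_mul_of_nonneg_left h10 (by positivity)
  have h4 : ∑ S ∈ Ss, (q : ℝ) ^ P * (1 / (2 * (n : ℝ))) ^ S.card < (q : ℝ) ^ P := by
    have hq' : (0 : ℝ) < q := by exact_mod_cast hq
    have hn' : (0 : ℝ) < n := by exact_mod_cast hn
    have h5 : ∑ S : Finset (Fin n), (1 / (2 * (n : ℝ))) ^ S.card = (1 + 1 / (2 * (n : ℝ))) ^ n := by
      have := Finset.sum_pow_mul_eq_add_pow (1 / (2 * (n : ℝ))) 1 (Finset.univ : Finset (Fin n))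
      simp only [Finset.powerset_univ, one_pow, mul_one, Finset.card_univ, Fintype.card_fin] at this
      rw [this, add_comm]
    have h6 : (1 + 1 / (2 * (n : ℝ))) ^ n < 2 := by
      have h7 : 1 + 1 / (2 * (n : ℝ)) ≤ Real.exp (1 / (2 * (n : ℝ))) := by
        have := Real.add_one_le_exp (1 / (2 * (n : ℝ)))
        linarith
      have h8 : (1 + 1 / (2 * (n : ℝ))) ^ n ≤ Real.exp (1 / (2 * (n : ℝ))) ^ n :=
        pow_le_pow_left₀ (by positivity) h7 n
      rw [← Real.exp_nat_mul] at h8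
      have h9 : (n : ℝ) * (1 / (2 * (n : ℝ))) = 1 / 2 := by field_simp
      rw [h9] at h8
      have h10 : Real.exp (1 / 2) < 2 := by
        have h11 : Real.exp (1 / 2) ^ 2 = Real.exp 1 := by
          rw [← Real.exp_nat_mul]; norm_num
        have h12 := Real.exp_one_lt_d9
        nlinarith [Real.exp_pos (1 / 2 : ℝ)]
      linarith
    have h7 : ∑ S ∈ Ss, (1 / (2 * (n : ℝ))) ^ S.card ≤
        ∑ S : Finset (Fin n), (1 / (2 * (n : ℝ))) ^ S.card - 1 := by
      have h8 : ∑ S ∈ insert ∅ Ss, (1 / (2 * (n : ℝ))) ^ S.card ≤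
          ∑ S : Finset (Fin n), (1 / (2 * (n : ℝ))) ^ S.card :=
        Finset.sum_le_sum_of_subset_of_nonneg (Finset.subset_univ _) (fun _ _ _ => by positivity)
      rw [Finset.sum_insert] at h8
      · simp only [Finset.card_empty, pow_zero] at h8
        linarith
      · intro h
        have := (Finset.mem_filter.1 h).2.1
        simp at this
    rw [← Finset.mul_sum]
    have h8 : ∑ S ∈ Ss, (1 / (2 * (n : ℝ))) ^ S.card < 1 := by linarith
    have h9 : (0 : ℝ) < (q : ℝ) ^ P := by positivity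
    nlinarith
  have h5 : ((q : ℝ) ^ P) ≤ ((Finset.univ.biUnion (fun a : Fin q => Ss.biUnion (fun S =>
        (Finset.powersetCard (t S.card) S.sym2).biUnion (fun T => box a T)))).card : ℝ) := by
    exact_mod_cast h2
  linarith

open Classical in
lemma host_exists {n q : ℕ} (hn : 0 < n) (hq : 0 < q) (Q : ℕ) (t : ℕ → ℕ)
    (ht : ∀ m, 1 ≤ m → m ≤ Q → (2 * n) ^ m * (q * ((m + 1).choose 2).choose (t m)) ≤ q ^ t m) :
    ∃ H : SimpleGraph (Fin n), n.choose 2 ≤ q * H.edgeFinset.card ∧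
      ∀ S : Finset (Fin n), 1 ≤ S.card → S.card ≤ Q →
        (H.edgeFinset ∩ S.sym2).card < t S.card := by
  obtain ⟨f, hf⟩ := good_colouring hn hq Q t ht
  have hedge : ∀ (a : Fin q) (G : SimpleGraph (Fin n)), G = SimpleGraph.fromEdgeSet {e | f e = a} →
      G.edgeFinset = Finset.univ.filter (fun e => ¬ e.IsDiag ∧ f e = a) := by
    intro a G hG
    ext e
    rw [SimpleGraph.mem_edgeFinset, hG, SimpleGraph.edgeSet_fromEdgeSet, Finset.mem_filter]
    simp only [Set.mem_sdiff, Set.mem_ofPred_eq, Finset.mem_univ, true_and]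
    exact and_comm
  let E : Fin q → Finset (Sym2 (Fin n)) := fun a =>
    Finset.univ.filter (fun e => ¬ e.IsDiag ∧ f e = a)
  have hsum : ∑ a, (E a).card = n.choose 2 := by
    have h1 := Sym2.card_subtype_not_diag (α := Fin n)
    rw [Fintype.card_fin, Fintype.card_subtype] at h1
    rw [← h1, Finset.card_eq_sum_card_fiberwise (f := f) (t := Finset.univ)
      (fun _ _ => Finset.mem_coe.2 (Finset.mem_univ _))]
    refine Finset.sum_congr rfl fun a _ => ?_
    rw [Finset.filter_filter]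
  obtain ⟨a, ha⟩ : ∃ a, n.choose 2 ≤ q * (E a).card := by
    by_contra hcon
    push Not at hcon
    have h1 : ∑ a : Fin q, q * (E a).card < ∑ _a : Fin q, n.choose 2 :=
      Finset.sum_lt_sum_of_nonempty ⟨⟨0, hq⟩, Finset.mem_univ _⟩ (fun a _ => hcon a)
    rw [← Finset.mul_sum, hsum, Finset.sum_const, Finset.card_univ, Fintype.card_fin,
      smul_eq_mul] at h1
    exact lt_irrefl _ h1
  obtain ⟨G, hG⟩ : ∃ G : SimpleGraph (Fin n), G = SimpleGraph.fromEdgeSet {e | f e = a} := ⟨_, rfl⟩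
  have hGE := hedge a G hG
  refine ⟨G, ?_, fun S hS1 hS2 => lt_of_le_of_lt (Finset.card_le_card ?_) (hf a S hS1 hS2)⟩
  · rw [hGE]; exact ha
  · intro e he
    rw [Finset.mem_inter, hGE] at he
    exact Finset.mem_filter.2 ⟨he.2, (Finset.mem_filter.1 he.1).2.2⟩

/-! ### The parameters -/

lemma self_pow_le (t : ℕ) : t ^ t ≤ 3 ^ t * t.factorial := by
  have h1 := Real.pow_div_factorial_le_exp (t : ℝ) (by positivity) t
  have h2 : Real.exp (t : ℝ) ≤ 3 ^ t := by
    have h3 : Real.exp (t : ℝ) = Real.exp 1 ^ t := by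
      rw [← Real.exp_nat_mul, mul_one]
    rw [h3]
    have := Real.exp_one_lt_d9
    exact pow_le_pow_left₀ (Real.exp_pos 1).le (by linarith) t
  have h4 : (t : ℝ) ^ t ≤ 3 ^ t * (t.factorial : ℝ) := by
    have h5 : (0 : ℝ) < t.factorial := by exact_mod_cast t.factorial_pos
    rw [div_le_iff₀ h5] at h1
    exact h1.trans (mul_le_mul_of_nonneg_right h2 h5.le)
  exact_mod_cast h4

/-- `C(M,t) ≤ x^t` if `3 M ≤ x t`. -/
lemma choose_le_of {M t x : ℕ} (h : 3 * M ≤ x * t) : M.choose t ≤ x ^ t := by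
  have h1 : M.choose t * t.factorial ≤ M ^ t := by
    rw [mul_comm, ← Nat.descFactorial_eq_factorial_mul_choose]
    exact Nat.descFactorial_le_pow M t
  have h2 : 3 ^ t * M ^ t ≤ x ^ t * t ^ t := by
    rw [← mul_pow, ← mul_pow]
    exact Nat.pow_le_pow_left h t
  have h3 : M.choose t * (3 ^ t * t.factorial) ≤ x ^ t * (3 ^ t * t.factorial) := by
    calc M.choose t * (3 ^ t * t.factorial) = 3 ^ t * (M.choose t * t.factorial) := by ring
      _ ≤ 3 ^ t * M ^ t := Nat.mul_le_mul_left _ h1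
      _ ≤ x ^ t * t ^ t := h2
      _ ≤ x ^ t * (3 ^ t * t.factorial) := Nat.mul_le_mul_left _ (self_pow_le t)
  exact Nat.le_of_mul_le_mul_right h3 (by have := t.factorial_pos; positivity)

lemma choose_two_le (m : ℕ) (hm : 1 ≤ m) : (m + 1).choose 2 ≤ m ^ 2 := by
  rw [Nat.choose_two_right, Nat.add_sub_cancel]
  apply Nat.div_le_of_le_mul
  nlinarith

/-- the threshold for the number of edges on `m` vertices -/
def thr (s m : ℕ) : ℕ := if m ≤ 2 ^ (s / 4) then 16 * m else 64 * m * s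

lemma twelve_le (i : ℕ) (hi : 2 ≤ i) : 12 * (i + 1) ≤ 8 ^ i := by
  induction i, hi using Nat.le_induction with
  | base => norm_num
  | succ j hj ih =>
    rw [pow_succ]
    omega

lemma four_div (i : ℕ) (hi : 2 ≤ i) : 4 * (8 ^ i / 4) = 8 ^ i := by
  have h4 : 4 ∣ 8 ^ i := by
    obtain ⟨j, rfl⟩ := Nat.exists_eq_add_of_le (show 1 ≤ i by omega)
    rw [pow_add]
    exact Dvd.dvd.mul_right (by norm_num) _
  omega

lemma thr_ok (i m : ℕ) (hi : 2 ≤ i) (hm1 : 1 ≤ m) (hm2 : m ≤ 2 ^ (8 ^ i)) :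
    (2 * 4 ^ (8 ^ i)) ^ m * (2 ^ (8 ^ i - 3 * i - 3) *
      ((m + 1).choose 2).choose (thr (8 ^ i) m)) ≤ (2 ^ (8 ^ i - 3 * i - 3)) ^ thr (8 ^ i) m := by
  have hs : 12 * (i + 1) ≤ 8 ^ i := twelve_le i hi
  set s : ℕ := 8 ^ i with hsdef
  have hs8 : s = 2 ^ (3 * i) := by rw [hsdef, pow_mul]; norm_num
  have hs4 : 4 * (s / 4) = s := four_div i hi
  have hn : 2 * 4 ^ s = 2 ^ (2 * s + 1) := by
    rw [pow_succ, pow_mul]; norm_num; ring
  rw [hn]
  have hM := choose_two_le m hm1
  unfold thr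
  split_ifs with hms
  · -- few vertices
    have h1 : ((m + 1).choose 2).choose (16 * m) ≤ 2 ^ (8 * s * m) := by
      refine (Nat.choose_le_pow _ _).trans ?_
      refine (Nat.pow_le_pow_left hM _).trans ?_
      refine (Nat.pow_le_pow_left (Nat.pow_le_pow_left hms 2) _).trans ?_
      rw [← pow_mul, ← pow_mul]
      apply Nat.pow_le_pow_right (by norm_num)
      have : s / 4 * (2 * (16 * m)) = 8 * (4 * (s / 4)) * m := by ring
      rw [this, hs4]
    calc (2 ^ (2 * s + 1)) ^ m * (2 ^ (s - 3 * i - 3) * ((m + 1).choose 2).choose (16 * m))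
        ≤ (2 ^ (2 * s + 1)) ^ m * (2 ^ (s - 3 * i - 3) * 2 ^ (8 * s * m)) :=
          Nat.mul_le_mul_left _ (Nat.mul_le_mul_left _ h1)
      _ = 2 ^ ((2 * s + 1) * m + (s - 3 * i - 3 + 8 * s * m)) := by
          rw [← pow_mul, ← pow_add, ← pow_add]
      _ ≤ 2 ^ ((s - 3 * i - 3) * (16 * m)) := by
          apply Nat.pow_le_pow_right (by norm_num)
          have h2 : s - 3 * i - 3 ≤ s := by omega
          have h3 : 3 * s ≤ 4 * (s - 3 * i - 3) := by omega
          have h4 : 12 * s * m ≤ (s - 3 * i - 3) * (16 * m) := by nlinarith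
          have h5 : (2 * s + 1) * m + (s + 8 * s * m) ≤ 12 * s * m := by nlinarith
          omega
      _ = (2 ^ (s - 3 * i - 3)) ^ (16 * m) := by rw [pow_mul]
  · -- many vertices
    have hx : 3 * (m + 1).choose 2 ≤ 2 ^ (s - 3 * i - 3 - 1) * (64 * m * s) := by
      have h2 : 2 ^ (s - 3 * i - 3 - 1) * (16 * s) = 2 ^ s := by
        rw [hs8]
        rw [show (16 : ℕ) = 2 ^ 4 by norm_num, ← pow_add, ← pow_add, ← hs8]
        congr 1
        omega
      calc 3 * (m + 1).choose 2 ≤ 3 * m ^ 2 := Nat.mul_le_mul_left _ hM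
        _ ≤ 4 * m * 2 ^ s := by nlinarith
        _ = 2 ^ (s - 3 * i - 3 - 1) * (64 * m * s) := by rw [← h2]; ring
    have h1 : ((m + 1).choose 2).choose (64 * m * s) ≤
        (2 ^ (s - 3 * i - 3 - 1)) ^ (64 * m * s) := choose_le_of hx
    calc (2 ^ (2 * s + 1)) ^ m * (2 ^ (s - 3 * i - 3) * ((m + 1).choose 2).choose (64 * m * s))
        ≤ (2 ^ (2 * s + 1)) ^ m * (2 ^ (s - 3 * i - 3) *
          (2 ^ (s - 3 * i - 3 - 1)) ^ (64 * m * s)) :=
          Nat.mul_le_mul_left _ (Nat.mul_le_mul_left _ h1)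
      _ = 2 ^ ((2 * s + 1) * m + (s - 3 * i - 3 + (s - 3 * i - 3 - 1) * (64 * m * s))) := by
          rw [← pow_mul, ← pow_mul, ← pow_add, ← pow_add]
      _ ≤ 2 ^ ((s - 3 * i - 3) * (64 * m * s)) := by
          apply Nat.pow_le_pow_right (by norm_num)
          obtain ⟨r, hr⟩ := Nat.exists_eq_add_of_le (show 1 ≤ s - 3 * i - 3 by omega)
          have h2 : s - 3 * i - 3 ≤ s := by omega
          have h3 : s - 3 * i - 3 - 1 = r := by omega
          rw [h3]
          have h4 : (s - 3 * i - 3) * (64 * m * s) = r * (64 * m * s) + 64 * m * s := by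
            rw [hr]; ring
          rw [h4]
          nlinarith
      _ = (2 ^ (s - 3 * i - 3)) ^ (64 * m * s) := by rw [pow_mul]

lemma edge_count (i E : ℕ) (hi : 2 ≤ i)
    (hH1 : (4 ^ (8 ^ i)).choose 2 ≤ 2 ^ (8 ^ i - 3 * i - 3) * E) :
    1 + (8 ^ i * 2 ^ (8 ^ i) + 1) * 4 ^ (8 ^ i) < E := by
  have hs := twelve_le i hi
  have hs8 : 8 ^ i = 2 ^ (3 * i) := by rw [pow_mul]; norm_num
  have hq : 2 ^ (8 ^ i - 3 * i - 3) * (8 * 8 ^ i) = 2 ^ (8 ^ i) := by
    have h0 : 8 * 8 ^ i = 2 ^ (3 + 3 * i) := by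
      rw [pow_add, ← hs8]; norm_num
    rw [h0, ← pow_add]
    congr 1
    omega
  have h1 : 2 * (4 ^ (8 ^ i)).choose 2 = 4 ^ (8 ^ i) * (4 ^ (8 ^ i) - 1) := by
    rw [Nat.choose_two_right]
    exact Nat.mul_div_cancel' (Nat.even_mul_pred_self _).two_dvd
  set s : ℕ := 8 ^ i with hsdef
  set x : ℕ := 2 ^ s with hx
  have hn : 4 ^ s = x ^ 2 := by
    rw [hx, ← pow_mul, mul_comm s 2, pow_mul]; norm_num
  rw [hn] at hH1 h1 ⊢
  have hx4 : 4 ≤ x := by
    rw [hx]
    calc 4 = 2 ^ 2 := by norm_num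
      _ ≤ 2 ^ s := Nat.pow_le_pow_right (by norm_num) (by omega)
  obtain ⟨w, hw⟩ := Nat.exists_eq_add_of_le (show 1 ≤ x ^ 2 by nlinarith)
  have hw' : x ^ 2 - 1 = w := by omega
  rw [hw'] at h1
  have h2 : 4 * s * (x ^ 2 * w) ≤ x * E := by
    calc 4 * s * (x ^ 2 * w) = 8 * s * (x ^ 2).choose 2 := by rw [← h1]; ring
      _ ≤ 8 * s * (2 ^ (s - 3 * i - 3) * E) := Nat.mul_le_mul_left _ hH1
      _ = x * E := by rw [← hq]; ring
  have h3 : x * (1 + (s * x + 1) * x ^ 2) < x * E := by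
    refine lt_of_lt_of_le ?_ h2
    have h4 : 4 * s * (x ^ 2 * w) + 4 * s * x ^ 2 = 4 * s * (x ^ 2 * x ^ 2) := by
      have : x ^ 2 * x ^ 2 = x ^ 2 * w + x ^ 2 := by
        nth_rewrite 2 [hw]; ring
      rw [this]; ring
    have h5 : x ^ 2 * 16 ≤ x ^ 2 * x ^ 2 := Nat.mul_le_mul_left _ (by nlinarith)
    have h6 : x * x ^ 2 ≤ x ^ 2 * x ^ 2 := Nat.mul_le_mul_right _ (by nlinarith)
    have hs2 : 36 ≤ s := by omega
    set y : ℕ := x ^ 2 * x ^ 2 with hy
    have h7 : x ≤ y := by nlinarith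
    have h8 : x * (1 + (s * x + 1) * x ^ 2) = x + s * y + x * x ^ 2 := by rw [hy]; ring
    rw [h8]
    have h9 : 4 * s * x ^ 2 ≤ s * y := by
      have : s * (x ^ 2 * 16) ≤ s * y := Nat.mul_le_mul_left _ h5
      nlinarith
    have h10 : 36 * y ≤ s * y := Nat.mul_le_mul_right _ hs2
    have h11 : 0 < y := by omega
    have h12 : 4 * s * y = s * y + s * y + s * y + s * y := by ring
    have h13 : 4 * s * (x ^ 2 * w) + 4 * s * x ^ 2 = s * y + s * y + s * y + s * y := by
      rw [h4, h12]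
    omega
  exact Nat.lt_of_mul_lt_mul_left h3

open Classical in
/-- One stage of the construction. -/
lemma stage (i : ℕ) (hi : 2 ≤ i) : ∃ (H : SimpleGraph (Fin (4 ^ (8 ^ i))))
    (F : Fin (4 ^ (8 ^ i * 2 ^ (8 ^ i) + 1)) → SimpleGraph (Fin (4 ^ (8 ^ i)))),
    (∀ r, F r ≤ H) ∧
    (∀ S : Finset (Fin (4 ^ (8 ^ i))), 1 ≤ S.card → S.card ≤ 2 ^ (8 ^ i) →
      (H.edgeFinset ∩ S.sym2).card < thr (8 ^ i) S.card) ∧
    ∀ A : List Bool → List Bool → Prop, ∃ r, ¬ ∃ ℓ : Fin (4 ^ (8 ^ i)) → List Bool,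
      (∀ v, (ℓ v).length ≤ 8 ^ i * 2 ^ (8 ^ i)) ∧ Dec A ℓ (F r) := by
  obtain ⟨H, hH1, hH2⟩ := host_exists (n := 4 ^ (8 ^ i)) (q := 2 ^ (8 ^ i - 3 * i - 3))
    (by positivity) (by positivity) (2 ^ (8 ^ i)) (thr (8 ^ i))
    (fun m hm1 hm2 => thr_ok i m hi hm1 hm2)
  have hE := edge_count i _ hi hH1
  obtain ⟨F, hF1, hF2⟩ := family H (8 ^ i * 2 ^ (8 ^ i)) hE
  exact ⟨H, F, hF1, hH2, hF2⟩

/-! ### Counting labelled graphs -/

open Classical in
lemma few_edges (m D : ℕ) (hm : 1 ≤ m) :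
    (Finset.univ.filter (fun G : SimpleGraph (Fin m) => G.edgeFinset.card ≤ D)).card ≤
      (m ^ 2) ^ D := by
  have h0 : Fintype.card (Fin D → Sym2 (Fin m)) ≤ (m ^ 2) ^ D := by
    rw [Fintype.card_fun, Fintype.card_fin, Sym2.card, Fintype.card_fin]
    exact Nat.pow_le_pow_left (choose_two_le m hm) D
  refine le_trans ?_ h0
  rw [← Finset.card_univ]
  refine Finset.card_le_card_of_surjOn
    (fun g : Fin D → Sym2 (Fin m) => SimpleGraph.fromEdgeSet (Set.range g)) ?_
  intro G hG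
  have hcard := (Finset.mem_filter.1 (Finset.mem_coe.1 hG)).2
  let e := G.edgeFinset.equivFin
  let v0 : Fin m := ⟨0, hm⟩
  let g : Fin D → Sym2 (Fin m) := fun j =>
    if h : (j : ℕ) < G.edgeFinset.card then (e.symm ⟨j, h⟩ : Sym2 (Fin m)) else s(v0, v0)
  refine ⟨g, Finset.mem_coe.2 (Finset.mem_univ _), ?_⟩
  ext v w
  simp only
  rw [SimpleGraph.fromEdgeSet_adj]
  constructor
  · rintro ⟨⟨j, hj⟩, hvw⟩
    simp only [g] at hj
    split_ifs at hj with h
    · have h1 := (e.symm ⟨j, h⟩).2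
      rw [hj, SimpleGraph.mem_edgeFinset, SimpleGraph.mem_edgeSet] at h1
      exact h1
    · exfalso
      rw [Sym2.eq_iff] at hj
      rcases hj with ⟨h1, h2⟩ | ⟨h1, h2⟩
      · exact hvw (h1.symm.trans h2)
      · exact hvw (h2.symm.trans h1)
  · intro h
    refine ⟨?_, h.ne⟩
    have h1 : s(v, w) ∈ G.edgeFinset := by
      rw [SimpleGraph.mem_edgeFinset]; exact h
    let j := e ⟨s(v, w), h1⟩
    have hj : (j : ℕ) < D := j.2.trans_le hcard
    refine ⟨⟨j, hj⟩, ?_⟩
    simp only [g]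
    rw [dif_pos j.2]
    simp [j]

open Classical in
/-- The number of subgraphs of a graph. -/
lemma below_card (m : ℕ) (G₀ : SimpleGraph (Fin m)) :
    (Finset.univ.filter (fun G : SimpleGraph (Fin m) => G ≤ G₀)).card ≤
      2 ^ G₀.edgeFinset.card := by
  rw [← Finset.card_powerset]
  refine Finset.card_le_card_of_injOn (fun G => G.edgeFinset) ?_ ?_
  · intro G hG
    have h1 := (Finset.mem_filter.1 (Finset.mem_coe.1 hG)).2
    rw [Finset.mem_coe, Finset.mem_powerset]
    exact SimpleGraph.edgeFinset_mono h1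
  · intro G _ G' _ h
    exact SimpleGraph.edgeFinset_inj.1 h

open Classical in
/-- The number of edges of a host inside the image of an injection. -/
lemma comap_edges {m n : ℕ} (H : SimpleGraph (Fin n)) (φ : Fin m ↪ Fin n) :
    (H.comap φ).edgeFinset.card ≤ (H.edgeFinset ∩ (Finset.univ.map φ).sym2).card := by
  refine Finset.card_le_card_of_injOn (Sym2.map φ) ?_ ?_
  · intro e he
    rw [Finset.mem_coe, SimpleGraph.mem_edgeFinset] at he
    rw [Finset.mem_coe, Finset.mem_inter, SimpleGraph.mem_edgeFinset]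
    induction e with
    | _ v w =>
      rw [SimpleGraph.mem_edgeSet, SimpleGraph.comap_adj] at he
      refine ⟨he, ?_⟩
      simp
  · exact (Sym2.map.injective φ.injective).injOn

/-! ### The property -/

section final

open Classical in
/-- the number of labelled graphs on `m` vertices which come from one stage -/
lemma stage_card (i : ℕ) (hi : 2 ≤ i) (H : SimpleGraph (Fin (4 ^ (8 ^ i))))
    (F : Fin (4 ^ (8 ^ i * 2 ^ (8 ^ i) + 1)) → SimpleGraph (Fin (4 ^ (8 ^ i))))
    (h1 : ∀ r, F r ≤ H)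
    (h2 : ∀ S : Finset (Fin (4 ^ (8 ^ i))), 1 ≤ S.card → S.card ≤ 2 ^ (8 ^ i) →
      (H.edgeFinset ∩ S.sym2).card < thr (8 ^ i) S.card)
    (m : ℕ) (hm : 2 ≤ m) (hm1 : 2 ^ (8 ^ i / 4) < m) :
    (Finset.univ.filter (fun G : SimpleGraph (Fin m) => ∃ r, Nonempty (G ↪g F r))).card ≤
      m ^ (264 * m) := by
  have hs4 := four_div i hi
  have hs := twelve_le i hi
  have hn : (4 ^ (8 ^ i)) ^ m ≤ m ^ (8 * m) := by
    calc (4 ^ (8 ^ i)) ^ m = (2 ^ (8 ^ i / 4)) ^ (8 * m) := by
          rw [← pow_mul, ← pow_mul, show (4 : ℕ) = 2 ^ 2 by norm_num, ← pow_mul]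
          congr 1
          have h' : (2 ^ 2 : ℕ) = 4 := by norm_num
          rw [h']
          generalize 8 ^ i / 4 = u at hs4
          rw [← hs4]
          ring
      _ ≤ m ^ (8 * m) := Nat.pow_le_pow_left hm1.le _
  by_cases hcase : m ≤ 2 ^ (8 ^ i)
  · -- subgraphs of the host
    have hsub : Finset.univ.filter (fun G : SimpleGraph (Fin m) => ∃ r, Nonempty (G ↪g F r)) ⊆
        (Finset.univ : Finset (Fin m ↪ Fin (4 ^ (8 ^ i)))).biUnion (fun φ =>
          Finset.univ.filter (fun G : SimpleGraph (Fin m) => G ≤ H.comap φ)) := by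
      intro G hG
      obtain ⟨r, ⟨e⟩⟩ := (Finset.mem_filter.1 hG).2
      refine Finset.mem_biUnion.2 ⟨e.toEmbedding, Finset.mem_univ _, Finset.mem_filter.2
        ⟨Finset.mem_univ _, ?_⟩⟩
      intro v w hvw
      rw [SimpleGraph.comap_adj]
      exact h1 r (e.map_adj_iff.2 hvw)
    refine (Finset.card_le_card hsub).trans ?_
    refine Finset.card_biUnion_le.trans ?_
    have hφ : ∀ φ ∈ (Finset.univ : Finset (Fin m ↪ Fin (4 ^ (8 ^ i)))),
        (Finset.univ.filter (fun G : SimpleGraph (Fin m) => G ≤ H.comap φ)).card ≤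
          2 ^ (64 * m * 8 ^ i) := by
      intro φ _
      refine (below_card m _).trans ?_
      apply Nat.pow_le_pow_right (by norm_num)
      have h3 := comap_edges H φ
      have h4 : (Finset.univ.map φ).card = m := by simp
      have h5 := h2 (Finset.univ.map φ) (by rw [h4]; omega) (by rw [h4]; exact hcase)
      rw [h4] at h5
      unfold thr at h5
      rw [if_neg (not_le.2 hm1)] at h5
      refine le_trans (Finset.card_le_card ?_) (h3.trans h5.le)
      intro e he
      rw [SimpleGraph.mem_edgeFinset] at he ⊢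
      exact he
    refine (Finset.sum_le_card_nsmul _ _ _ hφ).trans ?_
    rw [smul_eq_mul, Finset.card_univ]
    have h6 : Fintype.card (Fin m ↪ Fin (4 ^ (8 ^ i))) ≤ (4 ^ (8 ^ i)) ^ m := by
      rw [Fintype.card_embedding_eq, Fintype.card_fin, Fintype.card_fin]
      exact Nat.descFactorial_le_pow _ _
    have h7 : 2 ^ (64 * m * 8 ^ i) ≤ m ^ (256 * m) := by
      calc 2 ^ (64 * m * 8 ^ i) = (2 ^ (8 ^ i / 4)) ^ (256 * m) := by
            rw [← pow_mul]
            congr 1
            generalize 8 ^ i / 4 = u at hs4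
            rw [← hs4]
            ring
        _ ≤ m ^ (256 * m) := Nat.pow_le_pow_left hm1.le _
    calc Fintype.card (Fin m ↪ Fin (4 ^ (8 ^ i))) * 2 ^ (64 * m * 8 ^ i)
        ≤ m ^ (8 * m) * m ^ (256 * m) := Nat.mul_le_mul (h6.trans hn) h7
      _ = m ^ (264 * m) := by rw [← pow_add]; congr 1; ring
  · -- few graphs in the family
    push Not at hcase
    have hsub : Finset.univ.filter (fun G : SimpleGraph (Fin m) => ∃ r, Nonempty (G ↪g F r)) ⊆
        (Finset.univ : Finset (Fin (4 ^ (8 ^ i * 2 ^ (8 ^ i) + 1)) ×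
          (Fin m → Fin (4 ^ (8 ^ i))))).image (fun x => (F x.1).comap x.2) := by
      intro G hG
      obtain ⟨r, ⟨e⟩⟩ := (Finset.mem_filter.1 hG).2
      refine Finset.mem_image.2 ⟨(r, e), Finset.mem_univ _, ?_⟩
      ext v w
      simp only [SimpleGraph.comap_adj]
      exact e.map_adj_iff
    refine (Finset.card_le_card hsub).trans ?_
    refine Finset.card_image_le.trans ?_
    rw [Finset.card_univ, Fintype.card_prod, Fintype.card_fun, Fintype.card_fin,
      Fintype.card_fin, Fintype.card_fin]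
    have h3 : 4 ^ (8 ^ i * 2 ^ (8 ^ i) + 1) ≤ m ^ (4 * m) := by
      calc 4 ^ (8 ^ i * 2 ^ (8 ^ i) + 1) = 2 ^ (2 * (8 ^ i * 2 ^ (8 ^ i) + 1)) := by
            rw [pow_mul]; norm_num
        _ ≤ 2 ^ (8 ^ i * (4 * m)) := by
            apply Nat.pow_le_pow_right (by norm_num)
            nlinarith
        _ = (2 ^ (8 ^ i)) ^ (4 * m) := by rw [pow_mul]
        _ ≤ m ^ (4 * m) := Nat.pow_le_pow_left hcase.le _
    calc 4 ^ (8 ^ i * 2 ^ (8 ^ i) + 1) * (4 ^ (8 ^ i)) ^ m
        ≤ m ^ (4 * m) * m ^ (8 * m) := Nat.mul_le_mul h3 hn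
      _ = m ^ (12 * m) := by rw [← pow_add]; congr 1; ring
      _ ≤ m ^ (264 * m) := Nat.pow_le_pow_right (by omega) (by omega)

/-- There is a hereditary property with at most `n ^ (265 n)` labelled graphs which has, for
infinitely many `n`, no local representation with labels of at most `(1/2) √n log₂ n` bits, hence
none with labels of `O(√n)` bits. -/
theorem result : ∃ P : (n : ℕ) → SimpleGraph (Fin n) → Prop,
    (∀ (m n : ℕ) (G : SimpleGraph (Fin m)) (G' : SimpleGraph (Fin n)),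
      P n G' → Nonempty (G ↪g G') → P m G) ∧
    (∃ k : ℕ, ∀ n, 2 ≤ n → {G : SimpleGraph (Fin n) | P n G}.ncard ≤ n ^ (k * n)) ∧
    (∀ N : ℕ, ∃ n, N ≤ n ∧ ∀ A : List Bool → List Bool → Prop, ∃ G : SimpleGraph (Fin n), P n G ∧
      ¬ ∃ ℓ : Fin n → List Bool, (∀ v, ((ℓ v).length : ℝ) ≤ 1 / 2 * √(n : ℝ) * Real.logb 2 n) ∧
        ∀ v w, v ≠ w → (G.Adj v w ↔ A (ℓ v) (ℓ w))) ∧
    (∀ (c : ℝ) (A : List Bool → List Bool → Prop), ∃ n, 2 ≤ n ∧ ∃ G : SimpleGraph (Fin n), P n G ∧
      ¬ ∃ ℓ : Fin n → List Bool, (∀ v, ((ℓ v).length : ℝ) ≤ c * √(n : ℝ)) ∧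
        ∀ v w, v ≠ w → (G.Adj v w ↔ A (ℓ v) (ℓ w))) := by
  classical
  choose H F h1 h2 h3 using stage
  have key : ∀ N : ℕ, ∃ i, ∃ hi : 2 ≤ i, N ≤ 4 ^ (8 ^ i) ∧ (N : ℝ) ≤ 8 ^ i := by
    intro N
    refine ⟨max 2 N, le_max_left _ _, ?_, ?_⟩
    · have h4 : N < 8 ^ N := Nat.lt_pow_self (by norm_num)
      have h5 : 8 ^ N ≤ 8 ^ max 2 N := Nat.pow_le_pow_right (by norm_num) (le_max_right _ _)
      have h6 : 8 ^ max 2 N < 4 ^ 8 ^ max 2 N := Nat.lt_pow_self (by norm_num)
      omega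
    · have h4 : N < 8 ^ N := Nat.lt_pow_self (by norm_num)
      have h5 : 8 ^ N ≤ 8 ^ max 2 N := Nat.pow_le_pow_right (by norm_num) (le_max_right _ _)
      have h6 : N ≤ 8 ^ max 2 N := by omega
      exact_mod_cast h6
  have hsq : ∀ i : ℕ, √((4 ^ (8 ^ i) : ℕ) : ℝ) = 2 ^ (8 ^ i) := by
    intro i
    have h4 : ((4 ^ (8 ^ i) : ℕ) : ℝ) = (2 ^ (8 ^ i)) ^ 2 := by
      push_cast
      rw [← pow_mul, mul_comm, pow_mul]
      norm_num
    rw [h4, Real.sqrt_sq (by positivity)]
  have hlog : ∀ i : ℕ, Real.logb 2 ((4 ^ (8 ^ i) : ℕ) : ℝ) = 2 * 8 ^ i := by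
    intro i
    have h4 : ((4 ^ (8 ^ i) : ℕ) : ℝ) = 2 ^ (2 * 8 ^ i) := by
      push_cast
      rw [pow_mul]
      norm_num
    rw [h4, Real.logb_pow, Real.logb_self_eq_one (by norm_num)]
    push_cast
    ring
  refine ⟨fun m G => ∃ (i : ℕ) (hi : 2 ≤ i) (r : _), Nonempty (G ↪g F i hi r), ?_, ?_, ?_, ?_⟩
  · rintro m n G G' ⟨i, hi, r, ⟨e⟩⟩ ⟨e'⟩
    exact ⟨i, hi, r, ⟨e.comp e'⟩⟩
  · refine ⟨265, fun m hm => ?_⟩
    have hfew : ∀ (i : ℕ) (hi : 2 ≤ i) (r : _) (G : SimpleGraph (Fin m)),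
        m ≤ 2 ^ (8 ^ i / 4) → Nonempty (G ↪g F i hi r) → G.edgeFinset.card ≤ 16 * m := by
      rintro i hi r G hmi ⟨e⟩
      have h4 : G ≤ (H i hi).comap e.toEmbedding := by
        intro v w hvw
        rw [SimpleGraph.comap_adj]
        exact h1 i hi r (e.map_adj_iff.2 hvw)
      have h5 := Finset.card_le_card (SimpleGraph.edgeFinset_mono h4)
      have h6 := comap_edges (H i hi) e.toEmbedding
      have h7 : (Finset.univ.map e.toEmbedding).card = m := by simp
      have h8 : 2 ^ (8 ^ i / 4) ≤ 2 ^ (8 ^ i) :=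
        Nat.pow_le_pow_right (by norm_num) (Nat.div_le_self _ _)
      have h9 := h2 i hi (Finset.univ.map e.toEmbedding) (by rw [h7]; omega) (by rw [h7]; omega)
      rw [h7] at h9
      unfold thr at h9
      rw [if_pos hmi] at h9
      omega
    have hsize : ∀ (i : ℕ) (hi : 2 ≤ i) (r : _) (G : SimpleGraph (Fin m)),
        Nonempty (G ↪g F i hi r) → m ≤ 4 ^ (8 ^ i) := by
      rintro i hi r G ⟨e⟩
      have := Fintype.card_le_of_injective e e.injective
      simpa using this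
    have hB := few_edges m (16 * m) (by omega)
    have hB' : (m ^ 2) ^ (16 * m) ≤ m ^ (264 * m) := by
      rw [← pow_mul]
      exact Nat.pow_le_pow_right (by omega) (by omega)
    have hfin : m ^ (264 * m) + m ^ (264 * m) ≤ m ^ (265 * m) := by
      have h4 : 2 ≤ m ^ m := by
        calc 2 ≤ m := hm
          _ = m ^ 1 := (pow_one m).symm
          _ ≤ m ^ m := Nat.pow_le_pow_right (by omega) (by omega)
      have h5 : m ^ (265 * m) = m ^ (264 * m) * m ^ m := by
        rw [← pow_add]; congr 1; ring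
      rw [h5]
      nlinarith [Nat.zero_le (m ^ (264 * m))]
    rw [Set.ncard_eq_toFinset_card']
    by_cases hmid : ∃ i, ∃ hi : 2 ≤ i, 2 ^ (8 ^ i / 4) < m ∧ m ≤ 4 ^ (8 ^ i)
    · obtain ⟨i, hi, hlow, hup⟩ := hmid
      have hT := stage_card i hi (H i hi) (F i hi) (h1 i hi) (h2 i hi) m hm hlow
      refine le_trans ?_ ((add_le_add (hB.trans hB') hT).trans hfin)
      refine le_trans (Finset.card_le_card ?_) (Finset.card_union_le _ _)
      intro G hG
      rw [Set.mem_toFinset] at hG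
      obtain ⟨j, hj, r, he⟩ := hG
      rw [Finset.mem_union, Finset.mem_filter, Finset.mem_filter]
      by_cases hij : j = i
      · subst hij
        exact Or.inr ⟨Finset.mem_univ _, r, he⟩
      · left
        refine ⟨Finset.mem_univ _, hfew j hj r G ?_ he⟩
        by_contra hcon
        push Not at hcon
        have hjup := hsize j hj r G he
        -- two different stages cannot both be in the middle
        have hdis : ∀ a b : ℕ, 2 ≤ a → a < b → 2 ^ (8 ^ b / 4) < m → m ≤ 4 ^ (8 ^ a) → False := by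
          intro a b ha hab hb1 ha1
          have h4 : 4 ^ (8 ^ a) ≤ 2 ^ (8 ^ b / 4) := by
            rw [show (4 : ℕ) = 2 ^ 2 by norm_num, ← pow_mul]
            apply Nat.pow_le_pow_right (by norm_num)
            have h5 : 8 ^ (a + 1) ≤ 8 ^ b := Nat.pow_le_pow_right (by norm_num) hab
            rw [pow_succ] at h5
            norm_num
            omega
          omega
        rcases lt_or_gt_of_ne hij with h | h
        · exact hdis j i hj h hlow hjup
        · exact hdis i j hi h hcon hup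
    · push Not at hmid
      refine le_trans ?_ ((hB.trans hB').trans (le_trans (Nat.le_add_left _ _) hfin))
      refine Finset.card_le_card ?_
      intro G hG
      rw [Set.mem_toFinset] at hG
      obtain ⟨j, hj, r, he⟩ := hG
      rw [Finset.mem_filter]
      refine ⟨Finset.mem_univ _, hfew j hj r G ?_ he⟩
      by_contra hcon
      push Not at hcon
      have := hmid j hj hcon
      have := hsize j hj r G he
      omega
  · intro N
    obtain ⟨i, hi, hN, _⟩ := key N
    refine ⟨4 ^ (8 ^ i), hN, fun A => ?_⟩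
    obtain ⟨r, hr⟩ := h3 i hi A
    refine ⟨F i hi r, ⟨i, hi, r, ⟨SimpleGraph.Embedding.refl⟩⟩, ?_⟩
    rintro ⟨ℓ, hℓ, hdec⟩
    refine hr ⟨ℓ, fun v => ?_, hdec⟩
    have h4 := hℓ v
    rw [hsq, hlog] at h4
    have h5 : ((ℓ v).length : ℝ) ≤ ((8 ^ i * 2 ^ (8 ^ i) : ℕ) : ℝ) := by
      push_cast
      linarith
    exact_mod_cast h5
  · intro c A
    obtain ⟨i, hi, _, hN⟩ := key ⌈c⌉₊
    have hn2 : 2 ≤ 4 ^ (8 ^ i) := by
      have h6 : 8 ^ i < 4 ^ 8 ^ i := Nat.lt_pow_self (by norm_num)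
      have := twelve_le i hi
      omega
    refine ⟨4 ^ (8 ^ i), hn2, ?_⟩
    obtain ⟨r, hr⟩ := h3 i hi A
    refine ⟨F i hi r, ⟨i, hi, r, ⟨SimpleGraph.Embedding.refl⟩⟩, ?_⟩
    rintro ⟨ℓ, hℓ, hdec⟩
    refine hr ⟨ℓ, fun v => ?_, hdec⟩
    have h4 := hℓ v
    rw [hsq] at h4
    have h5 : c ≤ 8 ^ i := (Nat.le_ceil c).trans hN
    have h6 : ((ℓ v).length : ℝ) ≤ ((8 ^ i * 2 ^ (8 ^ i) : ℕ) : ℝ) := by
      push_cast
      exact h4.trans (mul_le_mul_of_nonneg_right h5 (by positivity))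
    exact_mod_cast h6

end final

end Pool.Agent.Results.MP_3772ec_co.SqrtLogLabels
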